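import Pool.Agent.V1172.TameDisc

set_option autoImplicit false

open Set Pool.Agent.V1172.TameDisc

namespace Pool.Agent.Results.MP_2740df_an.NoDensityProperty

/-- There is a Stein manifold (a domain of `ℂ³`) containing a tame set, with transitive automorphism
group, that does not have the density property. -/
theorem result : ∃ U : Set (ℂ × ℂ × ℂ),
    IsStein U ∧ (∃ A, IsTame U A) ∧ IsTransitive U ∧ ¬ HasDensityProperty U := by
  refine ⟨Dom, isStein_Dom, ⟨A, isTame_A⟩, isTransitive_Dom, fun h => ?_⟩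
  have hx : ((1 : ℂ), ((0 : ℂ), (0 : ℂ))) ∈ Dom := by simp [Dom]
  obtain ⟨W, hW, hW2⟩ := h (fun _ => (1, (0, 0))) (by fun_prop) {((1 : ℂ), ((0 : ℂ), (0 : ℂ)))}
    (by simpa using hx) isCompact_singleton 1 one_pos
  have h1 := hW2 _ (mem_singleton _)
  have h2 := inLie_fst hW _ hx
  have h3 := norm_fst_le (W (1, (0, 0)) - (1, (0, 0)))
  rw [Prod.fst_sub, h2] at h3
  simp at h3
  linarith

end Pool.Agent.Results.MP_2740df_an.NoDensityProperty
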