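import Pool.Agent.V1172.TameDisc

set_option autoImplicit false

open Set Pool.Agent.V1172.TameDisc

namespace Pool.Agent.Results.MP_2740df_an.NotFlexible

/-- There is a Stein manifold (a domain of `ℂ³`) containing a tame set, with transitive automorphism
group, that is not holomorphically flexible. -/
theorem result : ∃ U : Set (ℂ × ℂ × ℂ),
    IsStein U ∧ (∃ A, IsTame U A) ∧ IsTransitive U ∧ ¬ IsFlexible U := by
  refine ⟨Dom, isStein_Dom, ⟨A, isTame_A⟩, isTransitive_Dom, fun h => ?_⟩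
  have hx : ((1 : ℂ), ((0 : ℂ), (0 : ℂ))) ∈ Dom := by simp [Dom]
  have h1 := h _ hx
  have h2 : Submodule.span ℂ {v : ℂ × ℂ × ℂ | ∃ V : ℂ × ℂ × ℂ → ℂ × ℂ × ℂ,
      IsCompleteField Dom V ∧ V (1, (0, 0)) = v} ≤ LinearMap.ker (LinearMap.fst ℂ ℂ (ℂ × ℂ)) := by
    rw [Submodule.span_le]
    rintro v ⟨V, hV, rfl⟩
    exact complete_fst hV hx
  rw [h1] at h2
  have h3 : ((1 : ℂ), ((0 : ℂ), (0 : ℂ))) ∈ LinearMap.ker (LinearMap.fst ℂ ℂ (ℂ × ℂ)) :=
    h2 Submodule.mem_top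
  simp at h3

end Pool.Agent.Results.MP_2740df_an.NotFlexible
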